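import Mathlib

namespace Pool.Agent.Results.MP_78f804_pr.NoLimit
open MeasureTheory Filter Finset
open scoped ENNReal Topology Classical

/-- `Pr(i ∈ A)` -/
noncomputable def p (i : ℕ) : ℝ := min 1 (1 / (i * Real.log 2))

/-- a coin showing `true` with probability `p i` -/
noncomputable def coin (i : ℕ) : Measure Bool :=
  ENNReal.ofReal (p i) • Measure.dirac true + ENNReal.ofReal (1 - p i) • Measure.dirac false

/-- independent coins; `A = {i ≥ 1 | ω i = true}` -/
noncomputable def P : Measure (ℕ → Bool) := Measure.infinitePi coin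

/-- `|Σ(A) ∩ [n]|` -/
noncomputable def S (ω : ℕ → Bool) (n : ℕ) : ℕ :=
  #{m ∈ Icc 1 n | ∃ F : Finset ℕ, F.Nonempty ∧ (∀ a ∈ F, 1 ≤ a ∧ ω a = true) ∧ ∑ a ∈ F, a = m}

lemma p0 (i : ℕ) : 0 ≤ p i := le_min zero_le_one (by have := Real.log_pos one_lt_two; positivity)
lemma p1 (i : ℕ) : 0 ≤ 1 - p i := sub_nonneg.2 (min_le_left _ _)

instance (i : ℕ) : IsProbabilityMeasure (coin i) :=
  ⟨by simp [coin, ← ENNReal.ofReal_add (p0 i) (p1 i)]⟩
instance : IsProbabilityMeasure P := by unfold P; infer_instance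

def G (n : ℕ) : Set (ℕ → Bool) := Set.pi (Ioc n (6 * n) : Finset ℕ) fun _ => {false}
def D (n : ℕ) : Set (ℕ → Bool) := {ω | ∑ i ∈ Icc 1 n, (if ω i = true then i else 0) ≤ 3 * n}

lemma mG (n : ℕ) : MeasurableSet (G n) :=
  MeasurableSet.pi (Finset.countable_toSet _) fun _ _ => trivial
lemma mD (n : ℕ) : MeasurableSet (D n) :=
  measurableSet_le (Finset.measurable_sum _ fun i _ =>
    (measurable_of_finite fun b : Bool => if b = true then i else 0).comp (measurable_pi_apply i))
    measurable_const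

lemma PG (n : ℕ) : P.real (G n) = ∏ i ∈ Ioc n (6 * n), (1 - p i) := by
  rw [Measure.real, P, G, Measure.infinitePi_pi _ fun _ _ => .singleton _, ENNReal.toReal_prod]
  exact prod_congr rfl fun i _ => by simp [coin, sub_nonneg.1 (p1 i)]

lemma PG' {n i : ℕ} (hi : i ≤ n) : P.real (G n ∩ {ω | ω i = true}) = p i * P.real (G n) := by
  have h : i ∉ Ioc n (6 * n) := by simp; omega
  have e : G n ∩ {ω | ω i = true} = Set.pi (insert i (Ioc n (6 * n)) : Finset ℕ)
      fun j => {decide (j = i)} := by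
    rw [coe_insert, Set.insert_pi, Set.inter_comm, G]
    congr 1
    · ext ω; simp
    · exact Set.pi_congr rfl fun j hj => by simp [show j ≠ i from fun e => h (e ▸ hj)]
  rw [PG, e, Measure.real, P, Measure.infinitePi_pi _ fun _ _ => .singleton _, prod_insert h,
    ENNReal.toReal_mul, ENNReal.toReal_prod]
  congr 1
  · simp [coin, p0]
  · exact prod_congr rfl fun j hj => by simp [coin, sub_nonneg.1 (p1 j), show j ≠ i from fun e => h (e ▸ hj)]

lemma low {m : ℕ} (hm : 1 ≤ m) : (1 / 2) ^ 16 ≤ P.real (G (3 * m) ∩ D (3 * m)) := by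
  have hl := Real.log_two_gt_d9
  have hm' : (1 : ℝ) ≤ m := by exact_mod_cast hm
  set n := 3 * m with hn
  have hn' : (n : ℝ) = 3 * m := by simp [hn]
  have h1 : (1 / 2) ^ 15 ≤ P.real (G n) := by
    have hx : (1 : ℝ) / (2 * m) ≤ 1 := by rw [div_le_one (by positivity)]; linarith
    have := one_add_mul_le_pow (a := -(1 / (2 * m) : ℝ)) (by linarith) m
    rw [show 1 + (m : ℝ) * -(1 / (2 * m)) = 1 / 2 by field_simp; ring] at this
    refine (pow_le_pow_left₀ (by norm_num) this 15).trans ?_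
    rw [PG, ← pow_mul, show m * 15 = #(Ioc n (6 * n)) by simp; omega, ← prod_const]
    refine prod_le_prod (fun _ _ => by linarith) fun i hi => ?_
    have : (n : ℝ) ≤ i := by exact_mod_cast (mem_Ioc.1 hi).1.le
    have : p i ≤ 1 / (2 * m) :=
      (min_le_right _ _).trans (one_div_le_one_div_of_le (by positivity) (by nlinarith))
    linarith
  have mi : ∀ i, MeasurableSet (G n ∩ {ω | ω i = true}) := fun i =>
    (mG n).inter (measurableSet_eq_fun (measurable_pi_apply i) measurable_const)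
  have h2 := integral_mono (μ := P) ((integrable_const (3 * n : ℝ)).indicator ((mG n).diff (mD n)))
    (integrable_finsetSum (Icc 1 n) fun i _ => (integrable_const (i : ℝ)).indicator (mi i))
    fun ω => Set.indicator_apply_le' (fun h => by
      have : ((3 * n : ℕ) : ℝ) ≤ (∑ i ∈ Icc 1 n, (if ω i = true then i else 0) : ℕ) := by
        exact_mod_cast (not_le.1 h.2).le
      simpa [Set.indicator, h.1] using this)
      fun _ => sum_nonneg fun i _ => Set.indicator_nonneg (fun _ _ => by positivity) _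
  rw [integral_finsetSum _ fun (i : ℕ) _ => (integrable_const (i : ℝ)).indicator (mi i),
    integral_indicator_const _ ((mG n).diff (mD n))] at h2
  have h3 : ∀ i ∈ Icc 1 n, ∫ ω, (G n ∩ {ω | ω i = true}).indicator (fun _ => (i : ℝ)) ω ∂P ≤
      3 / 2 * P.real (G n) := fun i hi => by
    have hi' : (0 : ℝ) < i := by exact_mod_cast (mem_Icc.1 hi).1
    have : p i * i ≤ 3 / 2 := by
      refine (mul_le_mul_of_nonneg_right (min_le_right _ _) hi'.le).trans ?_
      rw [div_mul_eq_mul_div, div_le_iff₀ (by positivity)]; nlinarith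
    rw [integral_indicator_const _ (mi i), PG' (mem_Icc.1 hi).2, smul_eq_mul]
    nlinarith
  have h4 := h2.trans (sum_le_sum h3)
  simp only [smul_eq_mul, sum_const, Nat.card_Icc, Nat.add_sub_cancel, nsmul_eq_mul] at h4
  have h5 := measureReal_inter_add_sdiff (μ := P) (s := G n) (mD n)
  have : P.real (G n \ D n) ≤ P.real (G n) / 2 := by nlinarith
  linarith

lemma S_eq {n : ℕ} {ω : ℕ → Bool} (h : ω ∈ G n ∩ D n) : S ω (6 * n) = S ω (3 * n) := by
  unfold S
  congr 1
  ext m
  simp only [mem_filter, mem_Icc]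
  refine ⟨fun ⟨h1, F, h2, h3, h4⟩ => ⟨⟨h1.1, ?_⟩, F, h2, h3, h4⟩, fun h1 => ⟨⟨h1.1.1, by omega⟩, h1.2⟩⟩
  refine le_trans ?_ h.2
  rw [← h4, ← sum_filter]
  refine sum_le_sum_of_subset fun a ha => mem_filter.2 ⟨mem_Icc.2 ⟨(h3 a ha).1, ?_⟩, (h3 a ha).2⟩
  by_contra h5
  have := single_le_sum (f := fun a => a) (fun _ _ => Nat.zero_le _) ha
  have := h.1 a (by simp; omega)
  simp_all

theorem result : ¬ ∀ᵐ ω ∂P, ∃ C : ℝ, 0 < C ∧
    Tendsto (fun n : ℕ => √(Real.log n) * S ω n / n) atTop (𝓝 C) := by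
  intro h
  have := tendsto_measure_of_ae_tendsto_indicator_of_isFiniteMeasure (μ := P) atTop
    (A := ∅) (As := fun m => G (3 * m) ∩ D (3 * m)) .empty (fun m => (mG _).inter (mD _)) ?_
  · have := ge_of_tendsto ((ENNReal.tendsto_toReal (by simp)).comp this)
      ((eventually_ge_atTop 1).mono fun m hm => low hm)
    norm_num at this
  filter_upwards [h] with ω ⟨C, hC, ht⟩
  have t1 := (ht.comp (tendsto_id.const_mul_atTop' (show 0 < 9 by norm_num))).const_mul (3 / 2)
  have t2 := (ht.comp (tendsto_id.const_mul_atTop' (show 0 < 18 by norm_num))).const_mul 2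
  filter_upwards [t1.eventually_lt t2 (by linarith), eventually_ge_atTop 1] with m h1 hm
  refine iff_of_false (fun hE => not_le.2 h1 ?_) id
  have hm' : (1 : ℝ) ≤ m := by exact_mod_cast hm
  have e := S_eq hE
  simp only [← mul_assoc, Nat.reduceMul] at e
  have : √(Real.log (18 * m)) ≤ 3 / 2 * √(Real.log (9 * m)) := by
    have h2 : Real.log (18 * m) ≤ 2 * Real.log (9 * m) := by
      rw [← Nat.cast_ofNat (n := 2), ← Real.log_pow]
      exact Real.log_le_log (by positivity) (by nlinarith)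
    have h3 : 0 ≤ Real.log (9 * m) := Real.log_nonneg (by linarith)
    rw [Real.sqrt_le_left (by positivity), mul_pow, Real.sq_sqrt h3]
    linarith
  simp only [Function.comp, id, e, Nat.cast_mul, Nat.cast_ofNat]
  calc _ = √(Real.log (18 * m)) * (S ω (9 * m) / (9 * m)) := by field_simp; ring
    _ ≤ 3 / 2 * √(Real.log (9 * m)) * (S ω (9 * m) / (9 * m)) := by gcongr
    _ = _ := by ring

end Pool.Agent.Results.MP_78f804_pr.NoLimit
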